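import Pool.Agent.TH270.RS.Tfae
import Pool.Agent.TH270.SH.Pos

/-!
# The laws for Euler products given by real polynomials
-/

set_option autoImplicit false

open MeasureTheory Filter Topology Set Complex NumberField IsDedekindDomain
open Pool.Agent.TH942.ES
open Pool.Agent.TH270.SH
open Pool.Agent.H921R2.TatePole (nm two_le_nm nm_summable)

namespace Pool.Agent.TH270.RS

variable {K : Type} [Field K] [NumberField K] {B : HeightOneSpectrum (𝓞 K) → Polynomial ℝ}
  {D : ℕ} {c : ℝ} {F : ℂ → ℂ}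

/-- the data for the laws -/
theorem lw (h : Eul B D c) (hd : ∀ s : ℂ, c < s.re → DifferentiableAt ℂ F s)
    (ha : AnalyticAt ℂ F c) (he : ∀ s : ℂ, c + 1 / 2 < s.re → F s = LB B s) {m : ℕ}
    (hm : analyticOrderAt F c = m) : Lw nmK (alB B D c) (fun s => F (c + s)) m where
  E := h.sys
  hreal := h.zpow_real
  hd := (h.con hd he).Ψd
  hL := fun s hs => by
    rw [he _ (by rw [Complex.add_re, Complex.ofReal_re]; linarith), h.LE_eq]
  h0 := (order_shift ha).1
  hm := by rw [(order_shift ha).2, hm]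

theorem zf_iff {F : ℂ → ℂ} {c : ℝ} : (∀ s : ℂ, 0 < s.re → F (c + s) ≠ 0) ↔
    ∀ s : ℂ, c < s.re → F s ≠ 0 := by
  constructor
  · intro h s hs
    have := h (s - c) (by rw [Complex.sub_re, Complex.ofReal_re]; linarith)
    rwa [add_sub_cancel] at this
  · intro h s hs
    exact h _ (by rw [Complex.add_re, Complex.ofReal_re]; linarith)

theorem grow_shift {F : ℂ → ℂ} {c : ℝ} (hc : 0 ≤ c)
    (h : ∃ (C : ℝ) (κ : ℕ), ∀ s : ℂ, c < s.re →
      ‖F s‖ ≤ C * (1 + ‖s‖) ^ κ * (1 + 1 / (s.re - c)) ^ κ) : Grow fun s => F (c + s) := by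
  obtain ⟨C, κ, h⟩ := h
  refine ⟨|C| * (1 + c) ^ κ, κ, fun s hs => ?_⟩
  have h1 := h (c + s) (by rw [Complex.add_re, Complex.ofReal_re]; linarith)
  have e1 : ((c : ℂ) + s).re - c = s.re := by
    rw [Complex.add_re, Complex.ofReal_re]
    ring
  rw [e1] at h1
  refine h1.trans ?_
  have e2 : 1 + ‖(c : ℂ) + s‖ ≤ (1 + c) * (1 + ‖s‖) := by
    have := norm_add_le (c : ℂ) s
    rw [Complex.norm_real, Real.norm_eq_abs, abs_of_nonneg hc] at this
    have := norm_nonneg s
    nlinarith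
  have e3 : C * (1 + ‖(c : ℂ) + s‖) ^ κ ≤ |C| * ((1 + c) * (1 + ‖s‖)) ^ κ :=
    mul_le_mul (le_abs_self C) (pow_le_pow_left₀ (by positivity) e2 κ) (by positivity)
      (abs_nonneg C)
  rw [mul_pow, ← mul_assoc] at e3
  exact mul_le_mul_of_nonneg_right e3 (by positivity)

/-- the local form at the centre in terms of `F` -/
theorem lead_shift {F : ℂ → ℂ} {c : ℂ} {r : ℕ} {A : ℂ} :
    Tendsto (fun s => F (c + s) / s ^ r) (𝓝[≠] 0) (𝓝 A) ↔
      Tendsto (fun s => F s / (s - c) ^ r) (𝓝[≠] c) (𝓝 A) := by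
  constructor
  · intro h
    have h1 : Tendsto (fun s : ℂ => s - c) (𝓝[≠] c) (𝓝[≠] 0) := by
      refine tendsto_nhdsWithin_of_tendsto_nhds_of_eventually_within _ ?_ ?_
      · have : Tendsto (fun s : ℂ => s - c) (𝓝 c) (𝓝 (c - c)) :=
          (continuous_id.sub continuous_const).tendsto c
        rw [sub_self] at this
        exact this.mono_left nhdsWithin_le_nhds
      · filter_upwards [self_mem_nhdsWithin] with s hs
        exact sub_ne_zero.2 hs
    refine (h.comp h1).congr fun s => ?_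
    simp only [Function.comp_apply, add_sub_cancel]
  · intro h
    have h1 : Tendsto (fun s : ℂ => c + s) (𝓝[≠] 0) (𝓝[≠] c) := by
      refine tendsto_nhdsWithin_of_tendsto_nhds_of_eventually_within _ ?_ ?_
      · have : Tendsto (fun s : ℂ => c + s) (𝓝 0) (𝓝 (c + 0)) :=
          (continuous_const.add continuous_id).tendsto 0
        rw [add_zero] at this
        exact this.mono_left nhdsWithin_le_nhds
      · filter_upwards [self_mem_nhdsWithin] with s hs
        have hs' : s ≠ 0 := hs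
        simp only [Set.mem_compl_iff, Set.mem_singleton_iff]
        intro h2
        exact hs' (add_eq_left.1 h2)
    refine (h.comp h1).congr fun s => ?_
    simp only [Function.comp_apply, add_sub_cancel_left]

/-- a weight given on `(0, b]` -/
theorem ad_of {w : ℝ → ℝ} {W b : ℝ} (hb : 0 < b) (hm : Measurable w)
    (hW : ∀ u, 0 < u → u ≤ b → |w u| ≤ W)
    (htop : ∀ κ, 0 ≤ κ → κ < b → ¬ ∀ᵐ x, x ∈ Ioo κ b → w x = 0)
    (hdini : IntegrableOn (fun u : ℝ => |w u - 1| / u) (Ioo 0 b)) : Ad w W b where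
  wt := by
    refine ⟨hm.indicator measurableSet_Ioc, fun u => ?_, hb, fun u hu => ?_⟩
    · unfold cut
      by_cases h : u ∈ Ioc (0 : ℝ) b
      · rw [indicator_of_mem h]
        exact hW u h.1 h.2
      · rw [indicator_of_notMem h, abs_zero]
        exact (abs_nonneg _).trans (hW b hb le_rfl)
    · unfold cut
      exact indicator_of_notMem (fun h => not_lt.2 h.2 hu) _
  top := fun κ hκ h => by
    refine htop (max κ 0) (le_max_right _ _) (max_lt hκ hb) ?_
    filter_upwards [h] with x hx hx2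
    have h0 : 0 < x := (le_max_right _ _).trans_lt hx2.1
    have h1 := hx ⟨(le_max_left _ _).trans_lt hx2.1, hx2.2⟩
    unfold cut at h1
    rwa [indicator_of_mem (show x ∈ Ioc (0 : ℝ) b from ⟨h0, hx2.2.le⟩)] at h1
  dini := by
    refine hdini.congr_fun (fun u hu => ?_) measurableSet_Ioo
    simp only
    unfold cut
    rw [indicator_of_mem (show u ∈ Ioc (0 : ℝ) b from ⟨hu.1, hu.2.le⟩)]

/-- conversely -/
theorem ad_iff {w : ℝ → ℝ} {W b : ℝ} (h : Ad w W b) : 0 < b ∧ Measurable (cut w b) ∧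
    (∀ u, 0 < u → u ≤ b → |cut w b u| ≤ W) ∧
    (∀ κ, 0 ≤ κ → κ < b → ¬ ∀ᵐ x, x ∈ Ioo κ b → cut w b x = 0) ∧
    IntegrableOn (fun u : ℝ => |cut w b u - 1| / u) (Ioo 0 b) :=
  ⟨h.wt.b0, h.wt.meas, fun u _ _ => h.wt.bd u, fun κ _ hκ => h.top κ hκ, h.dini⟩

end Pool.Agent.TH270.RS
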