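import Pool.Agent.TH270.RS.Sys

/-!
# The laws
-/

set_option autoImplicit false

open MeasureTheory Filter Topology Set Complex
open Pool.Agent.TH942.ES
open Pool.Agent.TH942.RZ (rzw)

namespace Pool.Agent.TH270.RS

variable {X : Type} {d : ℕ} {N : X → ℕ} {α : X → Fin d → ℂ} {Ψ : ℂ → ℂ} {m : ℕ}

theorem loglog_tendsto : Tendsto (fun Y : ℝ => Real.log (Real.log Y)) atTop atTop :=
  Real.tendsto_log_atTop.comp Real.tendsto_log_atTop

/-- polynomial growth -/
def Grow (Ψ : ℂ → ℂ) : Prop :=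
  ∃ (C : ℝ) (κ : ℕ), ∀ s : ℂ, 0 < s.re → ‖Ψ s‖ ≤ C * (1 + ‖s‖) ^ κ * (1 + 1 / s.re) ^ κ

/-- **One-sided laws.** -/
theorem Lw.one_sided (H : Lw N α Ψ m) (hG : Grow Ψ) (r : ℕ) : List.TFAE [
    (∀ s : ℂ, 0 < s.re → Ψ s ≠ 0) ∧ m ≤ r,
    ∀ k : ℝ, 0 < k → ∃ A : ℝ, 0 < A ∧ ∀ᶠ Y : ℝ in atTop,
      A ≤ Real.exp (Mw N α (rzw k) 1 Y) * Real.log Y ^ r,
    ∃ k : ℝ, 0 < k ∧ ∃ A : ℝ, 0 < A ∧ ∀ᶠ Y : ℝ in atTop,
      A ≤ Real.exp (Mw N α (rzw k) 1 Y) * Real.log Y ^ r,
    ∃ (w : ℝ → ℝ) (W b : ℝ), Ad w W b ∧ (∀ u, 0 < u → u ≤ b → 0 ≤ w u) ∧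
      ∀ ε : ℝ, 0 < ε → ∀ᶠ Y : ℝ in atTop,
        1 ≤ Real.exp (Mw N α w b Y) * Real.log Y ^ ((r : ℝ) + ε)] := by
  tfae_have 1 → 2 := by
    rintro ⟨hne, hmr⟩ k hk
    obtain ⟨C, κ, hC⟩ := hG
    obtain ⟨A, hA, -, h⟩ := H.riesz hne hC
    have h1 := h k hk
    set B : ℝ := A * Real.exp (m * (deriv Real.Gamma (k + 1) / Real.Gamma (k + 1))) with hB
    have hB0 : 0 < B := by positivity
    refine ⟨B / 2, by positivity, ?_⟩
    filter_upwards [h1.eventually (lt_mem_nhds (half_lt_self hB0)),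
      Real.tendsto_log_atTop.eventually_ge_atTop 1] with Y h2 h3
    refine h2.le.trans (mul_le_mul_of_nonneg_left ?_ (Real.exp_pos _).le)
    exact pow_le_pow_right₀ h3 hmr
  tfae_have 2 → 3 := fun h => ⟨1, one_pos, h 1 one_pos⟩
  tfae_have 3 → 4 := by
    rintro ⟨k, hk, A, hA, h⟩
    refine ⟨rzw k, 1, 1, Ad_rzw hk, fun u _ _ => by
      unfold rzw
      positivity, fun ε hε => ?_⟩
    have h1 : Tendsto (fun Y : ℝ => Real.log Y ^ ε) atTop atTop :=
      (tendsto_rpow_atTop hε).comp Real.tendsto_log_atTop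
    filter_upwards [h, h1.eventually_ge_atTop (1 / A), eventually_gt_atTop 1] with Y h2 h3 h4
    have hl := Real.log_pos h4
    rw [Real.rpow_add hl, Real.rpow_natCast, ← mul_assoc]
    calc (1 : ℝ) = A * (1 / A) := by field_simp
      _ ≤ _ := mul_le_mul h2 h3 (by positivity) (by positivity)
  tfae_have 4 → 1 := by
    rintro ⟨w, W, b, hw, hw0, h⟩
    have h1 := H.of_lower hw hw0 (ρ := r) fun ε hε => by
      filter_upwards [h ε hε, eventually_gt_atTop 1] with Y h2 h3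
      have hl := Real.log_pos h3
      have h4 : (0 : ℝ) ≤ Real.log (Real.exp (Mw N α w b Y) * Real.log Y ^ ((r : ℝ) + ε)) :=
        Real.log_nonneg h2
      rw [Real.log_mul (Real.exp_ne_zero _) (Real.rpow_pos_of_pos hl _).ne', Real.log_exp,
        Real.log_rpow hl] at h4
      linarith
    exact ⟨h1.1, by exact_mod_cast h1.2⟩
  tfae_finish

/-- **Two-sided laws.** -/
theorem Lw.two_sided (H : Lw N α Ψ m) (hG : Grow Ψ) (r : ℕ) : List.TFAE [
    (∀ s : ℂ, 0 < s.re → Ψ s ≠ 0) ∧ m = r,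
    ∀ k : ℝ, 0 < k → ∃ B : ℝ, 0 < B ∧
      Tendsto (fun Y : ℝ => Real.exp (Mw N α (rzw k) 1 Y) * Real.log Y ^ r) atTop (𝓝 B),
    ∃ k : ℝ, 0 < k ∧ ∃ A B : ℝ, 0 < A ∧ 0 < B ∧ ∀ᶠ Y : ℝ in atTop,
      A ≤ Real.exp (Mw N α (rzw k) 1 Y) * Real.log Y ^ r ∧
      Real.exp (Mw N α (rzw k) 1 Y) * Real.log Y ^ r ≤ B,
    ∃ (w : ℝ → ℝ) (W b : ℝ), Ad w W b ∧
      Tendsto (fun Y : ℝ => Mw N α w b Y / Real.log (Real.log Y)) atTop (𝓝 (-(r : ℝ)))] := by
  tfae_have 1 → 2 := by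
    rintro ⟨hne, hmr⟩ k hk
    obtain ⟨C, κ, hC⟩ := hG
    obtain ⟨A, hA, -, h⟩ := H.riesz hne hC
    have h1 := h k hk
    rw [hmr] at h1
    exact ⟨_, by positivity, h1⟩
  tfae_have 2 → 3 := by
    intro h
    obtain ⟨B, hB, h1⟩ := h 1 one_pos
    refine ⟨1, one_pos, B / 2, 2 * B, by positivity, by positivity, ?_⟩
    filter_upwards [h1.eventually (lt_mem_nhds (half_lt_self hB)),
      h1.eventually (gt_mem_nhds (show B < 2 * B by linarith))] with Y h2 h3
    exact ⟨h2.le, h3.le⟩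
  tfae_have 3 → 4 := by
    rintro ⟨k, hk, A, B, hA, hB, h⟩
    refine ⟨rzw k, 1, 1, Ad_rzw hk, ?_⟩
    set K : ℝ := |Real.log A| + |Real.log B| with hK
    have h4 : Tendsto (fun Y : ℝ => K / Real.log (Real.log Y)) atTop (𝓝 0) :=
      tendsto_const_nhds.div_atTop loglog_tendsto
    rw [tendsto_iff_norm_sub_tendsto_zero]
    refine squeeze_zero' (Eventually.of_forall fun Y => norm_nonneg _) ?_ h4
    filter_upwards [h, loglog_tendsto.eventually_ge_atTop 1, eventually_gt_atTop 1] with Y h5 h6 h8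
    have h7 : 0 < Real.log (Real.log Y) := by linarith
    have hl := Real.log_pos h8
    rw [Real.norm_eq_abs]
    have e1 : Mw N α (rzw k) 1 Y / Real.log (Real.log Y) - -(r : ℝ) =
        (Mw N α (rzw k) 1 Y + r * Real.log (Real.log Y)) / Real.log (Real.log Y) := by
      field_simp
      ring
    rw [e1, abs_div, abs_of_pos h7]
    refine div_le_div_of_nonneg_right ?_ h7.le
    have e2 : Mw N α (rzw k) 1 Y + r * Real.log (Real.log Y) =
        Real.log (Real.exp (Mw N α (rzw k) 1 Y) * Real.log Y ^ r) := by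
      rw [Real.log_mul (Real.exp_ne_zero _) (pow_pos hl r).ne', Real.log_exp, Real.log_pow]
    rw [e2]
    have e3 := Real.log_le_log hA h5.1
    have e4 := Real.log_le_log (hA.trans_le h5.1) h5.2
    have := neg_abs_le (Real.log A)
    have := le_abs_self (Real.log B)
    have := abs_nonneg (Real.log A)
    have := abs_nonneg (Real.log B)
    rw [abs_le]
    constructor <;> linarith
  tfae_have 4 → 1 := by
    rintro ⟨w, W, b, hw, h⟩
    have h1 := H.of_lim hw h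
    exact ⟨h1.1, by exact_mod_cast h1.2.symm⟩
  tfae_finish

/-- **The Riesz limit formula as a criterion.** -/
theorem Lw.formula (H : Lw N α Ψ m) (hG : Grow Ψ) (r : ℕ) {A : ℝ} (hA : 0 < A) : List.TFAE [
    (∀ s : ℂ, 0 < s.re → Ψ s ≠ 0) ∧ Tendsto (fun s => Ψ s / s ^ r) (𝓝[≠] 0) (𝓝 (A : ℂ)),
    ∀ k : ℝ, 0 < k → Tendsto (fun Y : ℝ => Real.exp (Mw N α (rzw k) 1 Y) * Real.log Y ^ r) atTop
      (𝓝 (A * Real.exp (r * (deriv Real.Gamma (k + 1) / Real.Gamma (k + 1))))),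
    ∃ k : ℝ, 0 < k ∧
      Tendsto (fun Y : ℝ => Real.exp (Mw N α (rzw k) 1 Y) * Real.log Y ^ r) atTop
      (𝓝 (A * Real.exp (r * (deriv Real.Gamma (k + 1) / Real.Gamma (k + 1)))))] := by
  have hAc : (A : ℂ) ≠ 0 := by exact_mod_cast hA.ne'
  tfae_have 1 → 2 := by
    rintro ⟨hne, hlim⟩ k hk
    have hmr : m = r := by
      have h1 := H.h0.analyticOrderAt_eq_natCast.1 H.hm
      obtain ⟨g, hg, hg1, hge⟩ := h1
      -- the order is determined by the limit
      have hx0 : Tendsto (fun s : ℂ => s) (𝓝[≠] 0) (𝓝 0) := nhdsWithin_le_nhds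
      have h3 : Tendsto (fun s : ℂ => s ^ m / s ^ r) (𝓝[≠] 0) (𝓝 (A / g 0)) := by
        have h4 : Tendsto g (𝓝[≠] 0) (𝓝 (g 0)) := hg.continuousAt.tendsto.mono_left nhdsWithin_le_nhds
        refine (hlim.div h4 hg1).congr' ?_
        filter_upwards [nhdsWithin_le_nhds hge, h4.eventually_ne hg1] with s hs hs2
        rw [Pi.div_apply, hs, sub_zero, smul_eq_mul]
        field_simp
      rcases lt_trichotomy m r with hlt | heq | hgt
      · exfalso
        obtain ⟨k, hk⟩ := Nat.exists_eq_add_of_lt hlt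
        have h6 := h3.mul (hx0.pow (k + 1))
        rw [zero_pow (by omega), mul_zero] at h6
        have h7 : Tendsto (fun _ : ℂ => (1 : ℂ)) (𝓝[≠] (0 : ℂ)) (𝓝 0) := by
          refine h6.congr' ?_
          filter_upwards [self_mem_nhdsWithin] with x hx
          have hxc : x ≠ 0 := hx
          rw [hk]
          field_simp
          ring
        exact one_ne_zero (tendsto_nhds_unique tendsto_const_nhds h7)
      · exact heq
      · exfalso
        obtain ⟨k, hk⟩ := Nat.exists_eq_add_of_lt hgt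
        have h6 : Tendsto (fun s : ℂ => s ^ m / s ^ r) (𝓝[≠] 0) (𝓝 0) := by
          have h7 := hx0.pow (k + 1)
          rw [zero_pow (by omega)] at h7
          refine h7.congr' ?_
          filter_upwards [self_mem_nhdsWithin] with x hx
          have hxc : x ≠ 0 := hx
          rw [hk]
          field_simp
          ring
        have h7 := tendsto_nhds_unique h3 h6
        exact (div_ne_zero hAc hg1) h7
    obtain ⟨C, κ, hC⟩ := hG
    obtain ⟨A', hA', hl', h⟩ := H.riesz hne hC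
    rw [hmr] at hl' h
    have : A' = A := by
      have := tendsto_nhds_unique hl' hlim
      exact_mod_cast this
    rw [← this]
    exact h k hk
  tfae_have 2 → 3 := fun h => ⟨1, one_pos, h 1 one_pos⟩
  tfae_have 3 → 1 := by
    rintro ⟨k, hk, h⟩
    set q : ℝ := Real.exp (r * (deriv Real.Gamma (k + 1) / Real.Gamma (k + 1))) with hq
    have hq0 : 0 < q := Real.exp_pos _
    have hB : 0 < A * q := by positivity
    have h0 : ∃ k : ℝ, 0 < k ∧ ∃ A B : ℝ, 0 < A ∧ 0 < B ∧ ∀ᶠ Y : ℝ in atTop,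
        A ≤ Real.exp (Mw N α (rzw k) 1 Y) * Real.log Y ^ r ∧
        Real.exp (Mw N α (rzw k) 1 Y) * Real.log Y ^ r ≤ B := by
      refine ⟨k, hk, A * q / 2, 2 * (A * q), by positivity, by positivity, ?_⟩
      filter_upwards [h.eventually (lt_mem_nhds (half_lt_self hB)),
        h.eventually (gt_mem_nhds (show A * q < 2 * (A * q) by linarith))] with Y h2 h3
      exact ⟨h2.le, h3.le⟩
    have h1 : (∀ s : ℂ, 0 < s.re → Ψ s ≠ 0) ∧ m = r := ((H.two_sided hG r).out 2 0).1 h0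
    obtain ⟨hne, hmr⟩ := h1
    refine ⟨hne, ?_⟩
    obtain ⟨C, κ, hC⟩ := hG
    obtain ⟨A', hA', hl', h'⟩ := H.riesz hne hC
    rw [hmr] at hl' h'
    have h2 := tendsto_nhds_unique (h' k hk) h
    rw [← hq] at h2
    have h3 : A' = A := mul_right_cancel₀ hq0.ne' h2
    rwa [h3] at hl'
  tfae_finish

end Pool.Agent.TH270.RS
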